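import Mathlib

/-!
# Finitely generated categorical product monoids

A categorical quasiproduct (CQP) monoid is a monoid with elements `π₁, π₂` and an operation `Σ` such
that `π₁ Σ(a,b) = a`, `π₂ Σ(a,b) = b` and `Σ(a,b) c = Σ(ac,bc)`; it is a categorical product (CP)
monoid if moreover `Σ(π₁,π₂) = 1`.

The smallest submonoid `N` of a CP monoid that contains `π₁, π₂` and is closed under `Σ` is finitely
generated as a monoid: it is generated by the projections, the diagonal `Σ(1,1)`, the swap
`Σ(π₂,π₁)`, the two associativity isomorphisms, and the products `g × 1` of these six elements with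
`1`. Indeed `(g × 1) × 1` is a conjugate of `g × 1` by the associativity isomorphism.
-/

set_option autoImplicit false

universe u

namespace Pool.Agent.Results.MP_eefcda_al.FGCategoricalProduct

/-- The structure of a categorical quasiproduct (CQP) monoid on a monoid `M`. -/
structure CQP (M : Type u) [Monoid M] where
  /-- the operation `Σ` -/
  S : M → M → M
  /-- the element `π₁` -/
  p1 : M
  /-- the element `π₂` -/
  p2 : M
  p1_S : ∀ a b, p1 * S a b = a
  p2_S : ∀ a b, p2 * S a b = b
  S_mul : ∀ a b c, S a b * c = S (a * c) (b * c)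

/-- A CQP monoid is a categorical product (CP) monoid if `Σ(π₁,π₂) = 1`. -/
def CQP.IsCP {M : Type u} [Monoid M] (C : CQP M) : Prop := C.S C.p1 C.p2 = 1

/-- The smallest submonoid which contains `π₁` and `π₂` and is closed under `Σ`. -/
def CQP.core {M : Type u} [Monoid M] (C : CQP M) : Submonoid M :=
  sInf {N | C.p1 ∈ N ∧ C.p2 ∈ N ∧ ∀ a ∈ N, ∀ b ∈ N, C.S a b ∈ N}

variable {M : Type u} [Monoid M] (C : CQP M)

/-- `a × b` -/
def tm (a b : M) : M := C.S (a * C.p1) (b * C.p2)

theorem tm_mul_S (a b c d : M) : tm C a b * C.S c d = C.S (a * c) (b * d) := by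
  rw [tm, C.S_mul, mul_assoc, mul_assoc, C.p1_S, C.p2_S]

theorem tm_mul_tm (a b c d : M) : tm C a b * tm C c d = tm C (a * c) (b * d) := by
  rw [tm, tm, ← tm, tm_mul_S, tm, mul_assoc, mul_assoc]

/-- `α = ` the map `((x,y),z) ↦ (x,(y,z))` -/
def al : M := C.S (C.p1 * C.p1) (C.S (C.p2 * C.p1) C.p2)

/-- `β = ` the map `(x,(y,z)) ↦ ((x,y),z)` -/
def be : M := C.S (C.S C.p1 (C.p1 * C.p2)) (C.p2 * C.p2)

/-- the swap -/
def sw : M := C.S C.p2 C.p1

/-- the diagonal -/
def dg : M := C.S 1 1

theorem tm_tm (hC : C.IsCP) (a : M) : tm C (tm C a 1) 1 = be C * tm C a 1 * al C := by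
  have h1 : tm C a 1 * al C = C.S (a * (C.p1 * C.p1)) (C.S (C.p2 * C.p1) C.p2) := by
    rw [al, tm_mul_S, one_mul]
  rw [mul_assoc, h1, be, C.S_mul, C.S_mul, C.p1_S, mul_assoc, C.p2_S, C.p1_S, mul_assoc C.p2 C.p2,
    C.p2_S, C.p2_S, tm, tm, C.S_mul, one_mul, mul_assoc]

theorem sw_conj (b : M) : sw C * tm C b 1 * sw C = tm C 1 b := by
  have h1 : tm C b 1 * sw C = C.S (b * C.p2) C.p1 := by rw [sw, tm_mul_S, one_mul]
  rw [mul_assoc, h1, sw, C.S_mul, C.p1_S, C.p2_S, tm, one_mul]

theorem S_eq (a b : M) : C.S a b = tm C a 1 * (sw C * tm C b 1 * sw C) * dg C := by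
  rw [sw_conj, tm_mul_tm, mul_one, one_mul, dg, tm_mul_S, mul_one, mul_one]

/-- the six basic elements -/
def B : Set M := {C.p1, C.p2, dg C, sw C, al C, be C}

/-- the generators -/
def Gn : Set M := B C ∪ (fun g => tm C g 1) '' B C

theorem Gn_finite : (Gn C).Finite := by
  have hB : (B C).Finite := by
    unfold B
    exact Set.toFinite _
  exact hB.union (hB.image _)

theorem tm_mem (hC : C.IsCP) (a : M) (ha : a ∈ Submonoid.closure (Gn C)) :
    tm C a 1 ∈ Submonoid.closure (Gn C) := by
  have hB : ∀ g ∈ B C, g ∈ Submonoid.closure (Gn C) := fun g hg =>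
    Submonoid.subset_closure (Or.inl hg)
  have hT : ∀ g ∈ B C, tm C g 1 ∈ Submonoid.closure (Gn C) := fun g hg =>
    Submonoid.subset_closure (Or.inr ⟨g, hg, rfl⟩)
  induction ha using Submonoid.closure_induction with
  | mem x hx =>
    rcases hx with hx | ⟨g, hg, rfl⟩
    · exact hT x hx
    · show tm C (tm C g 1) 1 ∈ _
      rw [tm_tm C hC]
      refine Submonoid.mul_mem _ (Submonoid.mul_mem _ (hB _ ?_) (hT g hg)) (hB _ ?_)
      · simp [B]
      · simp [B]
  | one =>
    have : tm C 1 1 = 1 := by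
      rw [tm, one_mul, one_mul]; exact hC
    rw [this]
    exact Submonoid.one_mem _
  | mul x y _ _ ihx ihy =>
    have : tm C (x * y) 1 = tm C x 1 * tm C y 1 := by rw [tm_mul_tm, one_mul]
    rw [this]
    exact Submonoid.mul_mem _ ihx ihy

theorem S_mem (hC : C.IsCP) (a b : M) (ha : a ∈ Submonoid.closure (Gn C))
    (hb : b ∈ Submonoid.closure (Gn C)) : C.S a b ∈ Submonoid.closure (Gn C) := by
  have hB : ∀ g ∈ B C, g ∈ Submonoid.closure (Gn C) := fun g hg =>
    Submonoid.subset_closure (Or.inl hg)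
  have hs : sw C ∈ Submonoid.closure (Gn C) := hB _ (by simp [B])
  have hd : dg C ∈ Submonoid.closure (Gn C) := hB _ (by simp [B])
  rw [S_eq]
  exact Submonoid.mul_mem _ (Submonoid.mul_mem _ (tm_mem C hC a ha)
    (Submonoid.mul_mem _ (Submonoid.mul_mem _ hs (tm_mem C hC b hb)) hs)) hd

theorem core_mem : C.p1 ∈ C.core ∧ C.p2 ∈ C.core ∧ ∀ a ∈ C.core, ∀ b ∈ C.core, C.S a b ∈ C.core := by
  refine ⟨?_, ?_, ?_⟩
  · rw [CQP.core, Submonoid.mem_sInf]
    exact fun N hN => hN.1
  · rw [CQP.core, Submonoid.mem_sInf]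
    exact fun N hN => hN.2.1
  · intro a ha b hb
    rw [CQP.core, Submonoid.mem_sInf] at *
    exact fun N hN => hN.2.2 a (ha N hN) b (hb N hN)

theorem core_eq (hC : C.IsCP) : C.core = Submonoid.closure (Gn C) := by
  apply le_antisymm
  · apply sInf_le
    refine ⟨Submonoid.subset_closure (Or.inl ?_), Submonoid.subset_closure (Or.inl ?_),
      fun a ha b hb => S_mem C hC a b ha hb⟩
    · simp [B]
    · simp [B]
  · rw [Submonoid.closure_le]
    obtain ⟨h1, h2, h3⟩ := core_mem C
    have one : (1 : M) ∈ C.core := Submonoid.one_mem _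
    have hB : ∀ g ∈ B C, g ∈ C.core := by
      intro g hg
      simp only [B, Set.mem_insert_iff, Set.mem_singleton_iff] at hg
      rcases hg with rfl | rfl | rfl | rfl | rfl | rfl
      · exact h1
      · exact h2
      · exact h3 _ one _ one
      · exact h3 _ h2 _ h1
      · exact h3 _ (Submonoid.mul_mem _ h1 h1) _ (h3 _ (Submonoid.mul_mem _ h2 h1) _ h2)
      · exact h3 _ (h3 _ h1 _ (Submonoid.mul_mem _ h1 h2)) _ (Submonoid.mul_mem _ h2 h2)
    rintro g (hg | ⟨g, hg, rfl⟩)
    · exact hB g hg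
    · exact h3 _ (Submonoid.mul_mem _ (hB g hg) h1) _ (Submonoid.mul_mem _ one h2)

theorem core_fg (hC : C.IsCP) : C.core.FG := by
  rw [core_eq C hC]
  exact ⟨(Gn_finite C).toFinset, by rw [Set.Finite.coe_toFinset]⟩

/-- The restriction of the CQP structure to the core. -/
def coreCQP : CQP C.core where
  S a b := ⟨C.S a b, (core_mem C).2.2 a a.2 b b.2⟩
  p1 := ⟨C.p1, (core_mem C).1⟩
  p2 := ⟨C.p2, (core_mem C).2.1⟩
  p1_S _ _ := Subtype.ext (C.p1_S _ _)
  p2_S _ _ := Subtype.ext (C.p2_S _ _)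
  S_mul _ _ _ := Subtype.ext (C.S_mul _ _ _)

/-- All maps from `ℕ` to `ℕ` form a CP monoid. -/
def natCQP : CQP (Function.End ℕ) where
  S a b := fun n => Nat.pair (a n) (b n)
  p1 := fun n => (Nat.unpair n).1
  p2 := fun n => (Nat.unpair n).2
  p1_S a b := by
    funext n
    show (Nat.unpair (Nat.pair (a n) (b n))).1 = a n
    rw [Nat.unpair_pair]
  p2_S a b := by
    funext n
    show (Nat.unpair (Nat.pair (a n) (b n))).2 = b n
    rw [Nat.unpair_pair]
  S_mul _ _ _ := rfl

/-- **Main result.** (1) There is a categorical product monoid, in particular a categorical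
quasiproduct monoid, which has at least two elements and is finitely generated as a monoid.
(2) More precisely, in every categorical product monoid the smallest submonoid which contains `π₁`
and `π₂` and is closed under `Σ` is finitely generated as a monoid; so (3) a categorical product
monoid without proper such submonoids is finitely generated as a
monoid. -/
theorem result :
    (∃ (M : Type) (_ : Monoid M) (C : CQP M), C.IsCP ∧ Nontrivial M ∧ Monoid.FG M) ∧
    (∀ (M : Type u) [Monoid M] (C : CQP M), C.IsCP → C.core.FG) ∧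
    (∀ (M : Type u) [Monoid M] (C : CQP M), C.IsCP → C.core = ⊤ → Monoid.FG M) := by
  have hnat : (natCQP).IsCP := by
    funext n
    show Nat.pair (Nat.unpair n).1 (Nat.unpair n).2 = n
    rw [Nat.pair_unpair]
  refine ⟨⟨natCQP.core, inferInstance, coreCQP natCQP, ?_, ?_, ?_⟩, ?_, ?_⟩
  · exact Subtype.ext hnat
  · refine ⟨⟨⟨natCQP.p1, (core_mem natCQP).1⟩, 1, ?_⟩⟩
    intro h
    have h1 : natCQP.p1 = 1 := congrArg Subtype.val h
    have h2 : (Nat.unpair (Nat.pair 0 1)).1 = Nat.pair 0 1 := congrFun h1 (Nat.pair 0 1)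
    rw [Nat.unpair_pair] at h2
    exact absurd h2 (by decide)
  · exact (Monoid.fg_iff_submonoid_fg _).2 (core_fg natCQP hnat)
  · intro M _ C hC
    exact core_fg C hC
  · intro M _ C hC h
    have := core_fg C hC
    rw [h] at this
    exact ⟨this⟩

end Pool.Agent.Results.MP_eefcda_al.FGCategoricalProduct
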